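import Pool.Agent.KS6_22.ED.Bnd
import Pool.Agent.KS6_22.ED.Un

set_option autoImplicit false

/-!
# MP_ead56d_lc, Q1: cones above commutative and above bounded languages

Every countable set of languages each of which is commutative, or bounded, or more generally a
rational transform of a commutative language, is contained in a principal, translatable rational
cone closed under product and union which does not contain the marked palindromes. There are exactly
continuum many such cones.
-/

open List

namespace Pool.Agent.Results.MP_ead56d_lc.CommutativeLanguages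

/-- A language over the countable letter supply `ℕ` that uses only finitely many letters. -/
def OverFinite (L : Language ℕ) : Prop := ∃ X : Finset ℕ, ∀ w ∈ L, ∀ c ∈ w, c ∈ X

/-- Image of `L` under the rational transduction `u ↦ g (h⁻¹ (u) ∩ R)` (Nivat's form);
`h` and `g` are the morphisms `Z* → ℕ*` given by their values on letters. -/
def transduce {Z : Type} (h g : Z → List ℕ) (R : Language Z) (L : Language ℕ) : Language ℕ :=
  {w | ∃ z ∈ R, z.flatMap h ∈ L ∧ z.flatMap g = w}

/-- A rational cone. -/
def IsRationalCone (F : Set (Language ℕ)) : Prop :=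
  (∀ L ∈ F, OverFinite L) ∧
  ∀ L ∈ F, ∀ (Z : Type) [Finite Z] (h g : Z → List ℕ) (R : Language Z),
    R.IsRegular → transduce h g R L ∈ F

/-- A principal rational cone: the least rational cone containing some language `L`. -/
def IsPrincipalCone (F : Set (Language ℕ)) : Prop :=
  IsRationalCone F ∧ ∃ L ∈ F, ∀ F' : Set (Language ℕ), IsRationalCone F' → L ∈ F' → F ⊆ F'

/-- Closure under product. -/
def ProductClosed (F : Set (Language ℕ)) : Prop :=
  ∀ L₁ ∈ F, ∀ L₂ ∈ F, L₁ * L₂ ∈ F

/-- Translatable: `⟨L⟩ = {aⁿ f bⁿ : n ≥ 1, f ∈ L}` for letters `a ≠ b` not occurring in `L`. -/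
def Translatable (F : Set (Language ℕ)) : Prop :=
  ∀ L ∈ F, ∀ a b : ℕ, a ≠ b → (∀ w ∈ L, a ∉ w ∧ b ∉ w) →
    ({w | ∃ n, 1 ≤ n ∧ ∃ f ∈ L, w = replicate n a ++ f ++ replicate n b} : Language ℕ) ∈ F

/-- Closure under union. -/
def UnionClosed (F : Set (Language ℕ)) : Prop :=
  ∀ L₁ ∈ F, ∀ L₂ ∈ F, L₁ + L₂ ∈ F

/-- The language of the marked palindromes `w 2 w̃`, `w ∈ {0, 1}*`, `w̃` the mirror image of `w`. -/
def Pal : Language ℕ := {v | ∃ w : List ℕ, (∀ c ∈ w, c < 2) ∧ v = w ++ 2 :: w.reverse}

/-- `F` is a principal, translatable rational cone closed under product and union which contains a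
nonempty language and does not contain the marked palindromes. -/
structure Small (F : Set (Language ℕ)) : Prop where
  principal : IsPrincipalCone F
  translatable : Translatable F
  product : ProductClosed F
  union : UnionClosed F
  nonempty : ∃ L ∈ F, ∃ w, w ∈ L
  notPal : Pal ∉ F

/-- `L` is commutative: it contains all rearrangements of its words. -/
def Commutative (L : Language ℕ) : Prop := ∀ u v : List ℕ, u.Perm v → u ∈ L → v ∈ L

/-- `K` is bounded: contained in `w_1* w_2* ⋯ w_k*` for some words `w_1, …, w_k`. -/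
def Bounded (K : Language ℕ) : Prop :=
  ∃ (k : ℕ) (ws : Fin k → List ℕ), ∀ u ∈ K, ∃ n : Fin k → ℕ,
    u = (List.finRange k).flatMap fun j => (List.replicate (n j) (ws j)).flatten

/-- `L` is a rational transform of a commutative language over a finite alphabet. -/
def FromCommutative (L : Language ℕ) : Prop :=
  ∃ D : Language ℕ, OverFinite D ∧ Commutative D ∧
    ∃ (Z : Type) (_ : Finite Z) (h g : Z → List ℕ) (R : Language Z),
      R.IsRegular ∧ L = transduce h g R D

open Pool.Agent.KS6_22.ED

theorem small (C : ℕ → Language ℕ) : Small (Base.coneG (Comm.NN C)) := by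
  refine ⟨Base.coneG_principal, Base.coneG_translatable (Comm.good C),
    Base.coneG_product (Comm.good C), fun L₁ h1 L₂ h2 => Un.union L₁ L₂ h1 h2,
    ⟨_, Base.G_mem_coneG, [], ?_⟩, Base.Pal_not_mem _⟩
  exact ⟨by simp, fun i => (Comm.good C).zero⟩

theorem commutative (C : ℕ → Language ℕ) (hX : ∀ i, OverFinite (C i))
    (hC : ∀ i, Commutative (C i)) : ∃ F, Small F ∧ ∀ i, C i ∈ F := by
  refine ⟨_, small C, fun i => ?_⟩
  obtain ⟨X, hX⟩ := hX i
  refine Comm.mem_cone C hC i (X.sup id + 1) fun w hw c hc => ?_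
  have : c ≤ X.sup id := Finset.le_sup (f := id) (hX w hw c hc)
  omega

/-- a language over a finite alphabet is a rational transform of itself -/
theorem self_transform (L : Language ℕ) (hL : OverFinite L) :
    ∃ (Z : Type) (_ : Finite Z) (h g : Z → List ℕ) (R : Language Z),
      R.IsRegular ∧ L = transduce h g R L := by
  obtain ⟨X, hX⟩ := hL
  let Z := {c // c ∈ X}
  refine ⟨Z, inferInstance, fun c => [c.1], fun c => [c.1], ⊤, Base.regular_univ, ?_⟩
  have key : ∀ z : List Z, z.flatMap (fun c => [c.1]) = z.map Subtype.val := by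
    intro z
    induction z with
    | nil => rfl
    | cons a z ih => rw [List.flatMap_cons, ih]; rfl
  apply Set.ext
  intro w
  constructor
  · intro hw
    have hm : (w.attach.map fun c => (⟨c.1, hX w hw c.1 c.2⟩ : Z)).map Subtype.val = w := by
      rw [List.map_map]
      simp [Function.comp_def]
    refine ⟨w.attach.map fun c => ⟨c.1, hX w hw c.1 c.2⟩, trivial, ?_, ?_⟩
    · rw [key, hm]; exact hw
    · rw [key, hm]
  · rintro ⟨z, _, hz, rfl⟩
    exact hz

theorem fromCommutative_of_commutative (L : Language ℕ) (hL : OverFinite L)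
    (hC : Commutative L) : FromCommutative L := ⟨L, hL, hC, self_transform L hL⟩

theorem fromCommutative_of_bounded (K : Language ℕ) (hK : Bounded K) : FromCommutative K := by
  obtain ⟨k, ws, hws⟩ := hK
  refine ⟨Bnd.cl k ws K, ⟨Finset.range k, fun w hw c hc => Finset.mem_range.2 (hw.1 c hc)⟩,
    fun u v huv hu => Bnd.cl_comm k ws K u v huv hu, ?_⟩
  have h1 := Bnd.mem_of_cl k ws K hws
    {L | ∃ (Z : Type) (_ : Finite Z) (h g : Z → List ℕ) (R : Language Z),
      R.IsRegular ∧ L = transduce h g R (Bnd.cl k ws K)} ?_ ?_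
  · exact h1
  · refine ⟨?_, ?_⟩
    · rintro L ⟨Z, _, h, g, R, _, rfl⟩
      exact Base.overFinite_transduce h g R _
    · rintro L ⟨Z₁, _, h₁, g₁, R₁, hR₁, rfl⟩ Z₂ _ h₂ g₂ R₂ hR₂
      obtain ⟨R, hR, heq⟩ := Base.transduce_comp h₁ g₁ R₁ h₂ g₂ R₂ hR₁ hR₂ (Bnd.cl k ws K)
      exact ⟨Z₁ ⊕ Z₂, inferInstance, _, _, R, hR, heq⟩
  · exact self_transform _ ⟨Finset.range k, fun w hw c hc => Finset.mem_range.2 (hw.1 c hc)⟩

/-- the rational transforms of a language -/
def T (L : Language ℕ) : Set (Language ℕ) :=
  {K | ∃ (Z : Type) (_ : Finite Z) (h g : Z → List ℕ) (R : Language Z),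
    R.IsRegular ∧ K = transduce h g R L}

theorem countable_T (L : Language ℕ) : (T L).Countable := by
  let I := Σ n : ℕ, Σ m : ℕ, (Fin n → List ℕ) × (Fin n → List ℕ) ×
    (Fin m → Fin n → Fin m) × Fin m × Set (Fin m)
  have : Countable I := inferInstance
  let φ : I → Language ℕ := fun x =>
    transduce x.2.2.1 x.2.2.2.1 (DFA.mk x.2.2.2.2.1 x.2.2.2.2.2.1 x.2.2.2.2.2.2).accepts L
  refine (Set.countable_range φ).mono ?_
  rintro K ⟨Z, _, h, g, R, ⟨σ, _, M, rfl⟩, rfl⟩
  obtain ⟨n, ⟨e⟩⟩ := Finite.exists_equiv_fin Z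
  obtain ⟨m, ⟨e'⟩⟩ := Finite.exists_equiv_fin σ
  let M' : DFA (Fin n) (Fin m) := (DFA.reindex e' M).comap e.symm
  refine ⟨⟨n, m, h ∘ e.symm, g ∘ e.symm, M'.step, M'.start, M'.accept⟩, ?_⟩
  have hM : M'.accepts = List.map e.symm ⁻¹' M.accepts := by
    rw [DFA.accepts_comap, DFA.accepts_reindex]
  show transduce (h ∘ e.symm) (g ∘ e.symm) M'.accepts L = _
  rw [hM]
  have hf : ∀ (f : Z → List ℕ) (z : List (Fin n)),
      z.flatMap (f ∘ e.symm) = (z.map e.symm).flatMap f := by
    intro f z
    rw [List.flatMap_map]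
    rfl
  apply Set.ext
  intro w
  constructor
  · rintro ⟨z, hz, h1, h2⟩
    exact ⟨z.map e.symm, hz, by rw [← hf]; exact h1, by rw [← hf]; exact h2⟩
  · rintro ⟨z, hz, h1, h2⟩
    have hz' : (z.map e).map e.symm = z := by
      rw [List.map_map]
      simp
    refine ⟨z.map e, ?_, ?_, ?_⟩
    · show (z.map e).map e.symm ∈ M.accepts
      rw [hz']; exact hz
    · rw [hf, hz']; exact h1
    · rw [hf, hz']; exact h2

theorem countable_small {F : Set (Language ℕ)} (hF : Small F) : F.Countable := by
  obtain ⟨h1, L, hL, h2⟩ := hF.principal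
  refine (countable_T L).mono (h2 (T L) ?_ (self_transform L (h1.1 L hL)))
  refine ⟨?_, ?_⟩
  · rintro K ⟨Z, _, h, g, R, _, rfl⟩
    exact Base.overFinite_transduce h g R L
  · rintro K ⟨Z₁, _, h₁, g₁, R₁, hR₁, rfl⟩ Z₂ _ h₂ g₂ R₂ hR₂
    obtain ⟨R, hR, heq⟩ := Base.transduce_comp h₁ g₁ R₁ h₂ g₂ R₂ hR₁ hR₂ L
    exact ⟨Z₁ ⊕ Z₂, inferInstance, _, _, R, hR, heq⟩

theorem main (K : Set (Language ℕ)) (hK : ∀ L ∈ K, FromCommutative L) :
    (∃ F, Small F ∧ K ⊆ F) ↔ K.Countable := by
  constructor
  · rintro ⟨F, hF, h⟩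
    exact (countable_small hF).mono h
  · intro hc
    rcases K.eq_empty_or_nonempty with h0 | hne
    · exact ⟨_, small fun _ => 0, h0 ▸ Set.empty_subset _⟩
    · obtain ⟨e, rfl⟩ := hc.exists_eq_range hne
      have h1 : ∀ i, FromCommutative (e i) := fun i => hK _ ⟨i, rfl⟩
      choose D hD1 hD2 hD3 using h1
      obtain ⟨F, hF, h⟩ := commutative D hD1 hD2
      refine ⟨F, hF, ?_⟩
      rintro _ ⟨i, rfl⟩
      obtain ⟨Z, _, h', g, R, hR, he⟩ := hD3 i
      rw [he]
      exact hF.principal.1.2 _ (h i) Z h' g R hR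

/-- the unary language of a set of numbers -/
def un (N : Set ℕ) : Language ℕ := {u | u = replicate u.length 0 ∧ u.length ∈ N}

theorem un_injective : Function.Injective un := by
  have key : ∀ (N : Set ℕ) (n : ℕ), replicate n 0 ∈ un N ↔ n ∈ N := by
    intro N n
    show (replicate n 0 = replicate (replicate n 0).length 0 ∧ (replicate n 0).length ∈ N) ↔ _
    rw [List.length_replicate]
    simp
  intro N N' h
  ext n
  rw [← key N n, ← key N' n, h]

theorem un_small (N : Set ℕ) : ∃ F, Small F ∧ un N ∈ F := by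
  have h1 : OverFinite (un N) := by
    refine ⟨{0}, fun w hw c hc => ?_⟩
    rw [hw.1] at hc
    exact Finset.mem_singleton.2 (List.eq_of_mem_replicate hc)
  have h2 : Commutative (un N) := by
    intro u v huv hu
    have h1 : u.length = v.length := huv.length_eq
    refine ⟨?_, h1 ▸ hu.2⟩
    rw [List.eq_replicate_iff]
    refine ⟨rfl, fun c hc => ?_⟩
    have h2 : c ∈ u := huv.mem_iff.2 hc
    rw [hu.1] at h2
    exact List.eq_of_mem_replicate h2
  obtain ⟨F, hF, h⟩ := commutative (fun _ => un N) (fun _ => h1) (fun _ => h2)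
  exact ⟨F, hF, h 0⟩

open Cardinal in
theorem card_small : #{F : Set (Language ℕ) | Small F} = 𝔠 := by
  have hset : #(Set ℕ) = 𝔠 := by rw [Cardinal.mk_set, Cardinal.mk_nat, Cardinal.two_power_aleph0]
  refine le_antisymm ?_ ?_
  · -- a generator determines the cone
    have h1 : ∀ F : {F : Set (Language ℕ) | Small F}, ∃ L ∈ F.1,
        ∀ F' : Set (Language ℕ), IsRationalCone F' → L ∈ F' → F.1 ⊆ F' :=
      fun F => F.2.principal.2
    choose gen g1 g2 using h1
    have hinj : Function.Injective gen := by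
      intro F F' h
      apply Subtype.ext
      refine Set.Subset.antisymm ?_ ?_
      · exact g2 F F'.1 F'.2.principal.1 (h ▸ g1 F')
      · exact g2 F' F.1 F.2.principal.1 (h ▸ g1 F)
    have h2 : #(Language ℕ) = 𝔠 := by
      show #(Set (List ℕ)) = 𝔠
      rw [Cardinal.mk_set, Cardinal.mk_list_eq_aleph0, Cardinal.two_power_aleph0]
    exact (Cardinal.mk_le_of_injective hinj).trans h2.le
  · by_contra hlt
    rw [not_le] at hlt
    have h1 : #(Set ℕ) ≤ #(⋃₀ {F : Set (Language ℕ) | Small F} : Set (Language ℕ)) := by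
      refine Cardinal.mk_le_of_injective (f := fun N => ⟨un N, ?_⟩) ?_
      · obtain ⟨F, hF, h⟩ := un_small N
        exact ⟨F, hF, h⟩
      · intro N N' h
        exact un_injective (Subtype.ext_iff.1 h)
    have h2 := Cardinal.mk_sUnion_le {F : Set (Language ℕ) | Small F}
    have h3 : (⨆ s : {F : Set (Language ℕ) | Small F}, #s) ≤ ℵ₀ := by
      refine ciSup_le' fun F => ?_
      exact Cardinal.le_aleph0_iff_set_countable.2 (countable_small F.2)
    have h4 : #{F : Set (Language ℕ) | Small F} * ℵ₀ < 𝔠 :=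
      Cardinal.mul_lt_of_lt Cardinal.aleph0_le_continuum hlt Cardinal.aleph0_lt_continuum
    rw [hset] at h1
    exact absurd (h1.trans (h2.trans (mul_le_mul_right h3 _))) (not_le.2 h4)

/-- **Main result.** (1) The language of marked palindromes is context-free. (2) Commutative
languages over finite alphabets and bounded languages are rational transforms of commutative
languages. (3) A set `K` of rational transforms of commutative languages is contained in a
principal, translatable rational cone closed under product and union which does not contain the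
marked palindromes, if and only if `K` is countable. (4) There are exactly continuum many such
cones. -/
theorem result :
    (OverFinite Pal ∧ Pal.IsContextFree) ∧
    ((∀ L : Language ℕ, OverFinite L → Commutative L → FromCommutative L) ∧
      (∀ L : Language ℕ, Bounded L → FromCommutative L)) ∧
    (∀ K : Set (Language ℕ), (∀ L ∈ K, FromCommutative L) →
      ((∃ F, Small F ∧ K ⊆ F) ↔ K.Countable)) ∧
    Cardinal.mk {F : Set (Language ℕ) | Small F} = Cardinal.continuum :=
  ⟨⟨Base.Pal_overFinite, Base.Pal_contextFree⟩,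
    ⟨fromCommutative_of_commutative, fromCommutative_of_bounded⟩, main, card_small⟩

end Pool.Agent.Results.MP_ead56d_lc.CommutativeLanguages
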